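import Pool.Agent.X20.Tr.LogR

/-!
# The eigenvalue `-1` for Liouville systems and `⌊α n ^ c⌋`

From Mathlib: `ArithmeticFunction.cardFactors`: the number of prime factors with multiplicity; `dimH E`: the Hausdorff
dimension of `E`; `⌊x⌋₊`: the integer part; `𝓝`: neighbourhoods.
-/

set_option autoImplicit false

namespace Pool.Agent.Results.MP_a4a062_nt.AlongDilatedPowers

open Finset Filter Topology
open Pool.Agent.X20.Tr

/-- the Liouville function -/
noncomputable def lam (n : ℕ) : ℝ := (-1) ^ ArithmeticFunction.cardFactors n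

/-- the logarithmic mean `(1 / log N) ∑ F n / n` over `n ≤ N` -/
noncomputable def logMean (F : ℕ → ℝ) (N : ℕ) : ℝ := (∑ n ∈ Icc 1 N, F n / n) / Real.log N

/-- the product `(-1) ^ (n + 1) λ(n + h 1) ⋯ λ(n + h k)` -/
noncomputable def term {k : ℕ} (h : Fin k → ℕ) (n : ℕ) : ℝ := (-1) ^ (n + 1) * ∏ i, lam (n + h i)

/-- For every real `c > 1` there are `0 < κ < 1` and a set `E` of real numbers of Hausdorff dimension at most `1 - κ`
such that for every real `α > 0` outside `E`: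

* for all `k` and `h 1, …, h k` and every `ρ`, the logarithmic mean of `(-1) ^ (n + 1) λ(n + h 1) ⋯ λ(n + h k)` tends to
  `ρ` if and only if the logarithmic mean of its values at the numbers `⌊α n ^ c⌋` tends to `ρ`;
* the assertion of Q1 holds if and only if it holds along `⌊α n ^ c⌋`. -/
theorem result (c : ℝ) (hc : 1 < c) : ∃ κ : ℝ, 0 < κ ∧ κ < 1 ∧ ∃ E : Set ℝ, dimH E ≤ ENNReal.ofReal (1 - κ) ∧
    ∀ α : ℝ, 0 < α → α ∉ E →
      (∀ (k : ℕ) (h : Fin k → ℕ) (ρ : ℝ), Tendsto (logMean (term h)) atTop (𝓝 ρ) ↔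
        Tendsto (logMean fun n => term h ⌊α * (n : ℝ) ^ c⌋₊) atTop (𝓝 ρ)) ∧
      ((∀ k : ℕ, 1 ≤ k → ∀ h : Fin k → ℕ, Tendsto (logMean (term h)) atTop (𝓝 0)) ↔
        ∀ k : ℕ, 1 ≤ k → ∀ h : Fin k → ℕ, Tendsto (logMean fun n => term h ⌊α * (n : ℝ) ^ c⌋₊) atTop (𝓝 0)) := by
  obtain ⟨κ, hκ0, hκ1, H⟩ := rlogSparse c hc
  obtain ⟨E, hE, h⟩ := H (Σ k : ℕ, Fin k → ℕ) (fun i n => term i.2 n) (fun i n => by
    show |term i.2 n| ≤ 1
    unfold term
    rw [abs_mul, abs_prod, abs_pow, abs_neg, abs_one, one_pow, one_mul]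
    apply prod_le_one (fun _ _ => abs_nonneg _)
    intro t _
    unfold lam
    rw [abs_pow, abs_neg, abs_one, one_pow])
  refine ⟨κ, hκ0, hκ1, E, hE, fun α hα hαE => ?_⟩
  have key : ∀ (k : ℕ) (h : Fin k → ℕ) (ρ : ℝ), Tendsto (logMean (term h)) atTop (𝓝 ρ) ↔
      Tendsto (logMean fun n => term h ⌊α * (n : ℝ) ^ c⌋₊) atTop (𝓝 ρ) := fun k g ρ =>
    (h α hα hαE ⟨k, g⟩).1 ρ
  exact ⟨key, fun h1 k hk g => (key k g 0).1 (h1 k hk g), fun h1 k hk g => (key k g 0).2 (h1 k hk g)⟩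

end Pool.Agent.Results.MP_a4a062_nt.AlongDilatedPowers
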